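import Pool.Agent.Y748.SR.Stm2

/-!
# Project SR, HOLE: empty intervals from the correlations, by inclusion and exclusion
-/

open Finset Filter Topology MeasureTheory

set_option autoImplicit false

namespace Pool.Agent.Y37.SR

open Pool.Agent.Y748.SR

/-- the alternating sums of binomial coefficients -/
theorem alt_sum (c m : ℕ) : ∑ k ∈ range (m + 1), (-1 : ℝ) ^ k * ((c + 1).choose k : ℝ) =
    (-1) ^ m * (c.choose m : ℝ) := by
  induction m with
  | zero => simp
  | succ m ih =>
    rw [Finset.sum_range_succ, ih, Nat.choose_succ_succ]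
    push_cast
    ring

theorem bonf (c m : ℕ) : |(if c = 0 then (1 : ℝ) else 0) -
    ∑ k ∈ range m, (-1 : ℝ) ^ k * (c.choose k : ℝ)| ≤ (c.choose m : ℝ) := by
  rcases m with _ | m
  · simp only [Finset.range_zero, Finset.sum_empty, sub_zero, Nat.choose_zero_right, Nat.cast_one]
    split_ifs <;> simp
  · rcases c with _ | c
    · rw [if_pos rfl, Finset.sum_range_succ']
      simp
    · rw [if_neg (Nat.succ_ne_zero c), alt_sum, zero_sub, abs_neg, abs_mul, abs_pow, abs_neg, abs_one,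
        one_pow, one_mul, Nat.abs_cast, Nat.choose_succ_succ]
      push_cast
      have : (0 : ℝ) ≤ (c.choose (m + 1) : ℝ) := Nat.cast_nonneg _
      linarith

/-- the number of injective tuples -/
theorem ncard_inj (k : ℕ) (P : Finset ℕ) :
    {n : Fin k → ℕ | Function.Injective n ∧ ∀ i, n i ∈ P}.ncard = P.card.descFactorial k := by
  classical
  rw [← Nat.card_coe_set_eq]
  let e : {n : Fin k → ℕ | Function.Injective n ∧ ∀ i, n i ∈ P} ≃ (Fin k ↪ P) :=
    { toFun := fun n => ⟨fun i => ⟨n.1 i, n.2.2 i⟩, fun i j h => n.2.1 (congrArg Subtype.val h)⟩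
      invFun := fun f => ⟨fun i => (f i : ℕ), fun i j h => f.injective (Subtype.ext h),
        fun i => (f i).2⟩
      left_inv := fun n => rfl
      right_inv := fun f => rfl }
  rw [Nat.card_congr e, Nat.card_eq_fintype_card, Fintype.card_embedding_eq, Fintype.card_fin,
    Fintype.card_coe]

/-- the abstract limit -/
theorem lim_of {I : Type} {l : Filter I} {A : I → ℝ} {B : ℕ → I → ℝ} {b : ℕ → ℝ}
    (hB : ∀ k, Tendsto (B k) l (𝓝 (b k)))
    (hs : Summable fun k : ℕ => (-1 : ℝ) ^ k / (k.factorial : ℝ) * b k)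
    (hb : Tendsto (fun m : ℕ => b m / (m.factorial : ℝ)) atTop (𝓝 0))
    (h : ∀ m j, |A j - ∑ k ∈ range m, (-1 : ℝ) ^ k / (k.factorial : ℝ) * B k j| ≤
      B m j / (m.factorial : ℝ)) :
    Tendsto A l (𝓝 (∑' k : ℕ, (-1 : ℝ) ^ k / (k.factorial : ℝ) * b k)) := by
  set E : ℝ := ∑' k : ℕ, (-1 : ℝ) ^ k / (k.factorial : ℝ) * b k with hE
  rw [Metric.tendsto_nhds]
  intro ε hε
  have h1 := hs.hasSum.tendsto_sum_nat
  rw [Metric.tendsto_nhds] at h1 hb
  obtain ⟨m, hm1, hm2⟩ := ((h1 (ε / 4) (by positivity)).and (hb (ε / 4) (by positivity))).exists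
  have h2 : Tendsto (fun j => ∑ k ∈ range m, (-1 : ℝ) ^ k / (k.factorial : ℝ) * B k j) l
      (𝓝 (∑ k ∈ range m, (-1 : ℝ) ^ k / (k.factorial : ℝ) * b k)) :=
    tendsto_finsetSum _ fun k _ => (hB k).const_mul _
  have h3 : Tendsto (fun j => B m j / (m.factorial : ℝ)) l (𝓝 (b m / (m.factorial : ℝ))) :=
    (hB m).div_const _
  rw [Metric.tendsto_nhds] at h2 h3
  filter_upwards [h2 (ε / 4) (by positivity), h3 (ε / 4) (by positivity)] with j hj2 hj3
  have h4 := h m j
  rw [Real.dist_eq] at hm1 hm2 hj2 hj3 ⊢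
  rw [sub_zero] at hm2
  have a1 := abs_lt.1 hm1
  have a2 := abs_lt.1 hm2
  have a3 := abs_lt.1 hj2
  have a4 := abs_lt.1 hj3
  have a5 := abs_le.1 h4
  rw [abs_lt]
  constructor <;> linarith [a1.1, a1.2, a2.1, a2.2, a3.1, a3.2, a4.1, a4.2, a5.1, a5.2]

theorem fin_le {u : ℕ → ℝ} (hu : Sq u) (M : ℝ) : {n : ℕ | 1 ≤ n ∧ u n ≤ M}.Finite := by
  have h1 : ∀ᶠ n : ℕ in atTop, M < u n := by
    filter_upwards [hu.lim.eventually (lt_mem_nhds (by norm_num : (1 / 2 : ℝ) < 1)),
      eventually_gt_atTop ⌈2 * |M|⌉₊] with n hn1 hn2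
    have h2 : 2 * |M| < n := lt_of_le_of_lt (Nat.le_ceil _) (by exact_mod_cast hn2)
    have h3 : (0 : ℝ) < n := lt_of_le_of_lt (by positivity) h2
    rw [lt_div_iff₀ h3] at hn1
    have h4 := le_abs_self M
    linarith
  obtain ⟨n0, hn0⟩ := eventually_atTop.1 h1
  refine (Finset.finite_toSet (Finset.range n0)).subset ?_
  rintro n ⟨_, hn⟩
  rw [Finset.coe_range, Set.mem_Iio]
  by_contra hcon
  push Not at hcon
  exact absurd (hn0 n hcon) (not_lt.2 hn)

section

variable {u : ℕ → ℝ} (hu : Sq u) (s : ℝ) (N : ℕ)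

/-- the indices which matter -/
noncomputable def FF (hu : Sq u) (s : ℝ) (N : ℕ) : Finset ℕ := (fin_le hu (N + s)).toFinset

open Classical in
/-- the number of points in the interval -/
noncomputable def ph (x : ℝ) : ℕ :=
  ((FF hu s N).filter fun n => x ≤ u n ∧ u n ≤ x + s).card

theorem meas_ph : Measurable (ph hu s N) := by
  classical
  unfold ph
  simp only [Finset.card_filter]
  refine Finset.measurable_sum _ fun n _ => ?_
  refine Measurable.ite ?_ measurable_const measurable_const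
  have h1 : {x : ℝ | x ≤ u n ∧ u n ≤ x + s} = Set.Icc (u n - s) (u n) := by
    ext x
    simp only [Set.mem_ofPred_eq, Set.mem_Icc]
    constructor
    · rintro ⟨h1, h2⟩
      exact ⟨by linarith, h1⟩
    · rintro ⟨h1, h2⟩
      exact ⟨h2, by linarith⟩
  rw [h1]
  exact measurableSet_Icc

theorem ph_le (x : ℝ) : ph hu s N x ≤ (FF hu s N).card := by
  classical
  unfold ph
  exact Finset.card_filter_le _ _

theorem int_ph (g : ℕ → ℝ) (a b : ℝ) :
    IntervalIntegrable (fun x => g (ph hu s N x)) volume a b := by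
  have h1 : Measurable fun x => g (ph hu s N x) := measurable_from_nat.comp (meas_ph hu s N)
  obtain ⟨C, hC⟩ : ∃ C : ℝ, ∀ x, ‖g (ph hu s N x)‖ ≤ C := by
    refine ⟨∑ k ∈ range ((FF hu s N).card + 1), ‖g k‖, fun x => ?_⟩
    exact Finset.single_le_sum (f := fun k => ‖g k‖) (fun k _ => norm_nonneg _)
      (Finset.mem_range.2 (Nat.lt_succ_of_le (ph_le hu s N x)))
  rw [intervalIntegrable_iff]
  refine Measure.integrableOn_of_bounded (M := C) ?_ h1.aestronglyMeasurable
    (Filter.Eventually.of_forall hC)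
  simp [Set.uIoc]

theorem corr_eq (k : ℕ) : corr u k N (fun _ => 0) (fun _ => s) =
    (1 / N : ℝ) * ∫ x in (0 : ℝ)..N, ((ph hu s N x).descFactorial k : ℝ) := by
  classical
  unfold corr
  congr 1
  refine intervalIntegral.integral_congr fun x hx => ?_
  rw [Set.uIcc_of_le (Nat.cast_nonneg N)] at hx
  simp only
  congr 1
  unfold ph
  rw [← ncard_inj]
  congr 1
  ext n
  simp only [Set.mem_ofPred_eq, Finset.mem_filter, Set.mem_Icc]
  refine and_congr_right fun _ => forall_congr' fun i => ?_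
  unfold FF
  rw [Set.Finite.mem_toFinset, Set.mem_ofPred_eq]
  constructor
  · rintro ⟨h1, h2, h3⟩
    exact ⟨⟨h1, by linarith [hx.2]⟩, by linarith, by linarith⟩
  · rintro ⟨⟨h1, _⟩, h3, h4⟩
    exact ⟨h1, by linarith, by linarith⟩

theorem hole_eq : (volume (hole u s N)).toReal =
    ∫ x in (0 : ℝ)..N, (if ph hu s N x = 0 then (1 : ℝ) else 0) := by
  classical
  have hm : MeasurableSet {x : ℝ | ph hu s N x = 0} := (meas_ph hu s N) (measurableSet_singleton 0)
  rw [intervalIntegral.integral_of_le (Nat.cast_nonneg N), ← integral_Icc_eq_integral_Ioc]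
  have h1 : (fun x => if ph hu s N x = 0 then (1 : ℝ) else 0) =
      Set.indicator {x : ℝ | ph hu s N x = 0} (fun _ => (1 : ℝ)) := by
    funext x
    simp only [Set.indicator_apply, Set.mem_ofPred_eq]
  rw [h1, setIntegral_indicator hm]
  have h2 : hole u s N = Set.Icc (0 : ℝ) N ∩ {x : ℝ | ph hu s N x = 0} := by
    ext x
    unfold hole
    simp only [Set.mem_ofPred_eq, Set.mem_inter_iff, Set.mem_Icc, and_assoc]
    refine and_congr_right fun hx0 => and_congr_right fun hxN => ?_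
    unfold ph
    rw [Finset.card_eq_zero, Finset.filter_eq_empty_iff]
    constructor
    · intro h n hn hc
      unfold FF at hn
      rw [Set.Finite.mem_toFinset, Set.mem_ofPred_eq] at hn
      exact h n hn.1 ⟨hc.1, hc.2⟩
    · intro h n hn hc
      refine h (x := n) ?_ ⟨hc.1, hc.2⟩
      unfold FF
      rw [Set.Finite.mem_toFinset, Set.mem_ofPred_eq]
      exact ⟨hn, by linarith [hc.2]⟩
  rw [h2]
  simp [Measure.real]

include hu in
theorem bound (m : ℕ) : |(1 / N : ℝ) * (volume (hole u s N)).toReal -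
    ∑ k ∈ range m, (-1 : ℝ) ^ k / (k.factorial : ℝ) * corr u k N (fun _ => 0) (fun _ => s)| ≤
      corr u m N (fun _ => 0) (fun _ => s) / (m.factorial : ℝ) := by
  have hN : (0 : ℝ) ≤ 1 / N := by positivity
  have hc : ∀ k : ℕ, corr u k N (fun _ => 0) (fun _ => s) =
      (k.factorial : ℝ) * ((1 / N : ℝ) * ∫ x in (0 : ℝ)..N, ((ph hu s N x).choose k : ℝ)) := by
    intro k
    have h1 : ∫ x in (0 : ℝ)..N, ((ph hu s N x).descFactorial k : ℝ) =
        (k.factorial : ℝ) * ∫ x in (0 : ℝ)..N, ((ph hu s N x).choose k : ℝ) := by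
      rw [← intervalIntegral.integral_const_mul]
      refine intervalIntegral.integral_congr fun x _ => ?_
      rw [Nat.descFactorial_eq_factorial_mul_choose]
      push_cast
      rfl
    rw [corr_eq hu, h1]
    ring
  have hk : ∀ k : ℕ, (k.factorial : ℝ) ≠ 0 := fun k => by
    exact_mod_cast Nat.factorial_ne_zero k
  have e1 : ∑ k ∈ range m, (-1 : ℝ) ^ k / (k.factorial : ℝ) * corr u k N (fun _ => 0) (fun _ => s) =
      (1 / N : ℝ) * ∫ x in (0 : ℝ)..N, ∑ k ∈ range m, (-1 : ℝ) ^ k * ((ph hu s N x).choose k : ℝ) := by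
    rw [intervalIntegral.integral_finsetSum fun k _ =>
      int_ph hu s N (fun c => (-1 : ℝ) ^ k * (c.choose k : ℝ)) 0 N, Finset.mul_sum]
    refine Finset.sum_congr rfl fun k _ => ?_
    rw [hc, intervalIntegral.integral_const_mul]
    have := hk k
    field_simp
  have e2 : corr u m N (fun _ => 0) (fun _ => s) / (m.factorial : ℝ) =
      (1 / N : ℝ) * ∫ x in (0 : ℝ)..N, ((ph hu s N x).choose m : ℝ) := by
    rw [hc]
    have := hk m
    field_simp
  rw [e1, e2, hole_eq hu, ← mul_sub, abs_mul, abs_of_nonneg hN]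
  refine mul_le_mul_of_nonneg_left ?_ hN
  have i1 := int_ph hu s N (fun c => if c = 0 then (1 : ℝ) else 0) 0 N
  have i2 := int_ph hu s N (fun c => ∑ k ∈ range m, (-1 : ℝ) ^ k * (c.choose k : ℝ)) 0 N
  rw [← intervalIntegral.integral_sub i1 i2]
  refine (intervalIntegral.abs_integral_le_integral_abs (Nat.cast_nonneg N)).trans ?_
  refine intervalIntegral.integral_mono_on (Nat.cast_nonneg N) (i1.sub i2).abs
    (int_ph hu s N (fun c => (c.choose m : ℝ)) 0 N) fun x _ => ?_
  exact bonf _ m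

end

theorem abs_int_le (hd : S_DET01) {s : ℝ} (hs : 0 ≤ s) (k : ℕ) :
    |∫ x : Fin k → ℝ in Set.Icc (fun _ => 0) (fun _ => s), sdet x| ≤ s ^ k := by
  have h1 : (volume (Set.Icc (fun _ : Fin k => (0 : ℝ)) (fun _ => s))) < ⊤ :=
    isCompact_Icc.measure_lt_top
  have h2 := norm_setIntegral_le_of_norm_le_const (f := fun x : Fin k → ℝ => sdet x) (C := 1) h1
    (fun x _ => by
      rw [Real.norm_eq_abs, abs_le]
      exact ⟨by linarith [(hd k x).1], (hd k x).2⟩)
  rw [Real.norm_eq_abs, one_mul] at h2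
  refine h2.trans (le_of_eq ?_)
  unfold Measure.real
  rw [Real.volume_Icc_pi_toReal (fun _ => hs)]
  simp

theorem t_HOLE : S_DET01 → S_HOLE := by
  intro hd u hu I l N _ hcorr s hs
  have hb : ∀ k : ℕ, |(-1 : ℝ) ^ k / (k.factorial : ℝ) *
      ∫ x : Fin k → ℝ in Set.Icc (fun _ => 0) (fun _ => s), sdet x| ≤ s ^ k / (k.factorial : ℝ) := by
    intro k
    have hk : (0 : ℝ) < (k.factorial : ℝ) := by exact_mod_cast Nat.factorial_pos k
    rw [abs_mul, abs_div, abs_pow, abs_neg, abs_one, one_pow, abs_of_pos hk, div_mul_eq_mul_div,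
      one_mul]
    exact div_le_div_of_nonneg_right (abs_int_le hd hs k) hk.le
  have hsum : Summable fun k : ℕ => (-1 : ℝ) ^ k / (k.factorial : ℝ) *
      ∫ x : Fin k → ℝ in Set.Icc (fun _ => 0) (fun _ => s), sdet x :=
    Summable.of_norm_bounded (Real.summable_pow_div_factorial s) hb
  have hz : Tendsto (fun m : ℕ => (∫ x : Fin m → ℝ in Set.Icc (fun _ => 0) (fun _ => s), sdet x) /
      (m.factorial : ℝ)) atTop (𝓝 0) := by
    refine squeeze_zero_norm (fun m => ?_) (Real.summable_pow_div_factorial s).tendsto_atTop_zero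
    have hk : (0 : ℝ) < (m.factorial : ℝ) := by exact_mod_cast Nat.factorial_pos m
    rw [Real.norm_eq_abs, abs_div, abs_of_pos hk]
    exact div_le_div_of_nonneg_right (abs_int_le hd hs m) hk.le
  exact lim_of (B := fun k j => corr u k (N j) (fun _ => 0) (fun _ => s))
    (fun k => hcorr k (fun _ => 0) (fun _ => s)) hsum hz fun m j => bound hu s (N j) m

end Pool.Agent.Y37.SR
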